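import Pool.Agent.Helper316TS.Col
import Pool.Agent.Helper905RS.Cyc
import Pool.Agent.Helper905RS.Rot

/-!
# A cyclically 6-edge-connected rotation `T_6`-snark

The graph has 190 vertices. It is the superposition of the Petersen graph with superedges made of the
flower snark `J_5` in `Pool.Agent.Helper316TS` (its adjacency, its degrees, its girth, its connectedness
and the absence of proper 3-edge-colourings are proved there). Here: it has an automorphism of order
three which rotates the spanning tree `T_6`, and it is cyclically 6-edge-connected (branch and bound over
all bipartitions of the vertex set with at most five edges between the two classes).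
-/

set_option autoImplicit false

namespace Pool.Agent.Results.MP_98514b_co.RotationSnarkSix

open Pool.Agent.Helper316TS Pool.Agent.Helper905RS

/-- There is a rotation `T_6`-snark that is cyclically 6-edge-connected. -/
theorem result : ∃ G : SimpleGraph (Fin 190), RotationSnark G 6 ∧ CycConn G 6 :=
  ⟨G, ⟨⟨G_cubic, G_conn, G_cyc, by rw [G_girth]; norm_num, G_col⟩, G_rot⟩, G_cyc6⟩

end Pool.Agent.Results.MP_98514b_co.RotationSnarkSix
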